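import Mathlib
import Pool.Agent.H79.CMD4

set_option autoImplicit false

open Pool.Agent.H79.CMD

theorem Pool.Agent.Results.MP_0a5ef7_al.Infinite.result :
    ∃ (R : Type) (_ : CommRing R) (_ : IsLocalRing R), IsNoetherianRing R ∧
      IsMCM R (ModuleCat.of R R) ∧ Uncountable (IsLocalRing.ResidueField R) ∧
      (∃ F : ℕ → ModuleCat.{0} R, ∀ M, IsMCM R M → Indec M → ∃ j, Nonempty (M ≃ₗ[R] F j)) ∧
      ∀ G : ModuleCat.{0} R, IsMCM R G → ∀ n : ℕ,
        ∃ M, IsMCM R M ∧ ¬ brN (fun X => Nonempty (X ≃ₗ[R] G)) (n + 1) M := by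
  let D := nagDat _ indep
  refine ⟨D.R, inferInstance, inferInstance, inferInstance, ?_, ?_,
    ⟨fun j => ModuleCat.of D.R (D.I j), D.classify⟩, D.not_gen⟩
  · exact D.mcm_of_reg (ModuleCat.of D.R D.R) (IsRegular.of_ne_zero D.T_ne).left.isSMulRegular
  · let φ : kk →+* Nag kk := (PowerSeries.C (R := kk)).codRestrict (Nag kk) C_mem
    exact ((IsLocalRing.residue D.R).comp ((algebraMap (Nag kk) D.R).comp φ)).injective.uncountable
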